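import Pool.Agent.Helper38.EC.GoalsE1

/-!
# MP_ecc237_nt, packet LAT: lattice sums for `y ≥ 1`.
-/

set_option autoImplicit false

open MeasureTheory Filter Topology Set

namespace Pool.Agent.Helper67.EC.E_LAT

open EC237 EC237.DX

theorem ry_ge_re (y : ℝ) (k : ℤ × ℤ) : |(k.1:ℝ)| ≤ ry y k := by
  have h := Complex.abs_re_le_norm (KA (y:ℂ) k)
  have e : (KA (y:ℂ) k).re = (k.1:ℝ) := by simp [KA]
  rw [e] at h
  exact h

theorem ry_ge_im (y : ℝ) (hy : 0 < y) (k : ℤ × ℤ) : |(k.2:ℝ)| * y ≤ ry y k := by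
  have h := Complex.abs_im_le_norm (KA (y:ℂ) k)
  have e : (KA (y:ℂ) k).im = (k.2:ℝ) * y := by simp [KA]
  rw [e, abs_mul, abs_of_pos hy] at h
  exact h

theorem one_le_abs (m : ℤ) (hm : m ≠ 0) : (1:ℝ) ≤ |(m:ℝ)| := by
  have h := Int.one_le_abs hm
  exact_mod_cast h

theorem ry_ge (y : ℝ) (hy : 0 < y) (k : ℤ × ℤ) (hk : k.2 ≠ 0) : y ≤ ry y k := by
  have h1 := ry_ge_im y hy k
  have h2 := one_le_abs k.2 hk
  nlinarith

theorem rk_le_ry (y : ℝ) (hy : 1 ≤ y) (k : ℤ × ℤ) : rk k ≤ ry y k := by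
  have e : (ry y k) ^ 2 = (k.1:ℝ) ^ 2 + ((k.2:ℝ) * y) ^ 2 := by
    unfold ry
    rw [← Complex.normSq_eq_norm_sq, Complex.normSq_apply]
    simp [KA]
    ring
  unfold rk
  apply Real.sqrt_le_iff.2
  refine ⟨norm_nonneg _, ?_⟩
  rw [e]
  have : (1:ℝ) ≤ y ^ 2 := by nlinarith
  nlinarith [mul_nonneg (sq_nonneg (k.2:ℝ)) (sub_nonneg.2 this)]

theorem rk_pos (k : ℤ × ℤ) (hk : k ≠ 0) : 0 < rk k := by
  unfold rk
  apply Real.sqrt_pos.2
  by_cases h1 : k.1 = 0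
  · have h2 : k.2 ≠ 0 := by
      intro h
      exact hk (Prod.ext h1 h)
    have : (0:ℝ) < (k.2:ℝ) ^ 2 := by positivity
    nlinarith [sq_nonneg (k.1:ℝ)]
  · have : (0:ℝ) < (k.1:ℝ) ^ 2 := by positivity
    nlinarith [sq_nonneg (k.2:ℝ)]

theorem pw_nonneg (k : ℤ × ℤ) : 0 ≤ pw k := Real.rpow_nonneg (Real.sqrt_nonneg _) _

theorem ry_nonneg (y : ℝ) (k : ℤ × ℤ) : 0 ≤ ry y k := norm_nonneg _

theorem part2 (hpw : Summable pw) (y : ℝ) (hy : 1 ≤ y) :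
    Summable (fun k : ℤ × ℤ => if k = 0 then 0 else ry y k ^ (-(5 / 2) : ℝ)) ∧
    ∑' k : ℤ × ℤ, (if k = 0 then 0 else ry y k ^ (-(5 / 2) : ℝ)) ≤ ∑' k, pw k := by
  have hle : ∀ k : ℤ × ℤ, (if k = 0 then 0 else ry y k ^ (-(5 / 2) : ℝ)) ≤ pw k := by
    intro k
    split_ifs with h
    · exact pw_nonneg k
    · exact Real.rpow_le_rpow_of_nonpos (rk_pos k h) (rk_le_ry y hy k) (by norm_num)
  have h0 : ∀ k : ℤ × ℤ, 0 ≤ (if k = 0 then 0 else ry y k ^ (-(5 / 2) : ℝ)) := by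
    intro k
    split_ifs with h
    · exact le_refl _
    · exact Real.rpow_nonneg (ry_nonneg y k) _
  have hs := Summable.of_nonneg_of_le h0 hle hpw
  exact ⟨hs, hs.tsum_le_tsum hle hpw⟩

/-- the factor for `n` -/
noncomputable def a (n : ℤ) : ℝ := (max |(n:ℝ)| 1) ^ (-(9 / 8) : ℝ)

theorem a_nonneg (n : ℤ) : 0 ≤ a n := Real.rpow_nonneg (by positivity) _

theorem a_summable : Summable a := by
  have h1 : Summable (fun n : ℤ => |(n:ℝ)| ^ (-(9 / 8) : ℝ)) :=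
    Real.summable_abs_int_rpow (by norm_num)
  have h2 : Summable (fun n : ℤ => if n = 0 then (1:ℝ) else 0) := by
    apply summable_of_ne_finset_zero (s := {0})
    intro n hn
    simp at hn
    simp [hn]
  refine Summable.of_nonneg_of_le a_nonneg ?_ (h1.add h2)
  intro n
  by_cases h : n = 0
  · subst h
    unfold a
    simp
  · unfold a
    rw [max_eq_left (one_le_abs n h)]
    simp [h]

theorem gen (q p : ℝ) (hq : 1 < q) (hp : p = 9 / 8 + q) :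
    ∃ C : ℝ, 0 ≤ C ∧ ∀ y : ℝ, 1 ≤ y →
      (Summable (fun k : ℤ × ℤ => if k.2 = 0 then 0 else ry y k ^ (-p)) ∧
      ∑' k : ℤ × ℤ, (if k.2 = 0 then 0 else ry y k ^ (-p)) ≤ C * y ^ (-q)) := by
  have hb : Summable (fun m : ℤ => |(m:ℝ)| ^ (-q)) := Real.summable_abs_int_rpow hq
  have hb0 : ∀ m : ℤ, 0 ≤ |(m:ℝ)| ^ (-q) := fun m => Real.rpow_nonneg (abs_nonneg _) _
  have hab : Summable (fun k : ℤ × ℤ => a k.1 * |(k.2:ℝ)| ^ (-q)) :=
    a_summable.mul_of_nonneg hb a_nonneg hb0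
  refine ⟨∑' k : ℤ × ℤ, a k.1 * |(k.2:ℝ)| ^ (-q),
    tsum_nonneg (fun k => mul_nonneg (a_nonneg _) (hb0 _)), ?_⟩
  intro y hy
  have hy0 : 0 < y := lt_of_lt_of_le one_pos hy
  have hle : ∀ k : ℤ × ℤ, (if k.2 = 0 then 0 else ry y k ^ (-p)) ≤
      a k.1 * |(k.2:ℝ)| ^ (-q) * y ^ (-q) := by
    intro k
    split_ifs with h
    · exact mul_nonneg (mul_nonneg (a_nonneg _) (hb0 _)) (Real.rpow_nonneg hy0.le _)
    · have hm := one_le_abs k.2 h
      have h1 := ry_ge_re y k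
      have h2 := ry_ge_im y hy0 k
      have h3 := ry_ge y hy0 k h
      have hr : 0 < ry y k := lt_of_lt_of_le hy0 h3
      have hN : max |(k.1:ℝ)| 1 ≤ ry y k := max_le h1 (hy.trans h3)
      have hA : 0 < |(k.2:ℝ)| * y := mul_pos (by linarith) hy0
      have e : ry y k ^ (-p) = ry y k ^ (-(9 / 8) : ℝ) * ry y k ^ (-q) := by
        rw [← Real.rpow_add hr]
        congr 1
        rw [hp]
        ring
      rw [e, mul_assoc, ← Real.mul_rpow (abs_nonneg _) hy0.le]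
      apply mul_le_mul
      · exact Real.rpow_le_rpow_of_nonpos (by positivity) hN (by norm_num)
      · exact Real.rpow_le_rpow_of_nonpos hA h2 (by linarith)
      · exact Real.rpow_nonneg hr.le _
      · exact a_nonneg _
  have h0 : ∀ k : ℤ × ℤ, 0 ≤ (if k.2 = 0 then 0 else ry y k ^ (-p)) := by
    intro k
    split_ifs with h
    · exact le_refl _
    · exact Real.rpow_nonneg (ry_nonneg y k) _
  have hs := Summable.of_nonneg_of_le h0 hle (hab.mul_right (y ^ (-q)))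
  refine ⟨hs, ?_⟩
  rw [← tsum_mul_right]
  exact hs.tsum_le_tsum hle (hab.mul_right (y ^ (-q)))

theorem thm (h4 : EC237.B4) : EC237.DX.G_LAT := by
  obtain ⟨C1, hC1, H1⟩ := gen (11 / 8) (5 / 2) (by norm_num) (by norm_num)
  obtain ⟨C2, hC2, H2⟩ := gen (15 / 8) 3 (by norm_num) (by norm_num)
  have hP : 0 ≤ ∑' k, pw k := tsum_nonneg pw_nonneg
  refine ⟨fun y hy k hk => ry_ge y hy k hk, 1 + ∑' k, pw k + C1 + C2, by positivity, ?_⟩
  intro y hy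
  have hy0 : 0 < y := lt_of_lt_of_le one_pos hy
  obtain ⟨s1, t1⟩ := part2 h4.1 y hy
  obtain ⟨s2, t2⟩ := H1 y hy
  obtain ⟨s3, t3⟩ := H2 y hy
  refine ⟨⟨s1, by linarith⟩, ⟨s2, t2.trans ?_⟩, ⟨s3, t3.trans ?_⟩⟩
  · exact mul_le_mul_of_nonneg_right (by linarith) (Real.rpow_nonneg hy0.le _)
  · exact mul_le_mul_of_nonneg_right (by linarith) (Real.rpow_nonneg hy0.le _)

end Pool.Agent.Helper67.EC.E_LAT
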